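import Pool.Agent.H354.BG.Stm

set_option autoImplicit false

/-! Project BG (helper354): the final theorem (helper763). -/

namespace Pool.Agent.H763.BG.FIN

open Pool.Agent.H354.BG
open Pool.Agent.H482R3.EA (W inv ev)
open Pool.Agent.H482R3.EB (AR gR TR Symm SolvWP)

/-- THE THEOREM: block graphs -/
theorem t_FIN (hall : S_ALL) (hblk : S_BLK) : S_FIN := by
  classical
  intro n r M β R hRs hcom hcro hb
  let D : Dat :=
    { n := n
      m := fun i j => M i j
      r := r
      β := β
      R := fun a b => decide (R a b)
      symm := fun s t => M.symmetric s t
      ne1 := fun s t h => M.off_diagonal s t h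
      Rsymm := fun a b => by
        by_cases h : R a b
        · have h' := hRs a b h
          simp [h, h']
        · have h' : ¬ R b a := fun h2 => h (hRs b a h2)
          simp [h, h']
      com := fun s t hst hR => hcom s t hst (by simpa using hR)
      cro := fun s t hst hR => hcro s t hst (by simpa using hR) }
  have h1 : ∀ b, WPU D {b} := fun b => by
    obtain ⟨k, e, he⟩ := hb b
    exact hblk D (fun i => M.diagonal i) b k e he
  have h2 : WPU D Finset.univ := (hall D h1 Finset.univ).1
  have h3 : ComputablePred (fun u : W (Fin n) => TR (fun i j => M i j) u) := by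
    refine ComputablePred.of_eq h2 fun u => ?_
    have h4 : rho D Finset.univ (gEl D u) = gEl D u := rho_univ D (gEl D u)
    constructor
    · intro h5
      have h6 : gEl D u = 1 := h4.symm.trans h5
      exact h6
    · intro h5
      have h6 : gEl D u = 1 := h5
      exact h4.trans h6
  refine ComputablePred.of_eq h3 fun u => ?_
  exact (Pool.Agent.H482R3.EB.Asm.artr n (fun i j => M i j) (fun i => M.diagonal i)
    (fun i j => M.symmetric i j) u).symm

end Pool.Agent.H763.BG.FIN
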